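import Pool.Agent.MP_c69980_ag.H4.SpecA

/-!
Limits of bounded holomorphic maps along an ultrafilter, and the theorem of Hurwitz.
-/

set_option autoImplicit false

namespace Pool.Agent.MP_c69980_ag.H18

open MvPolynomial Metric Filter Topology Set
open H60 (PR)

variable {n : ℕ}

/-- Pointwise convergence of a bounded holomorphic family is locally uniform. -/
lemma locu {E : Type} [NormedAddCommGroup E] [NormedSpace ℂ E] {l : Filter ℕ} [l.NeBot]
    {Φ : ℕ → ℂ → E} {H : ℂ → E} {U : Set ℂ} (hU : IsOpen U) {A : ℝ}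
    (h : ∀ᶠ k in l, DifferentiableOn ℂ (Φ k) U ∧ ∀ z ∈ U, ‖Φ k z‖ ≤ A)
    (hH : ∀ z ∈ U, Tendsto (fun k => Φ k z) l (𝓝 (H z))) : TendstoLocallyUniformlyOn Φ H l U := by
  refine Metric.tendstoLocallyUniformlyOn_iff.2 fun ε hε x hx => ?_
  obtain ⟨r, r0, hr⟩ := Metric.isOpen_iff.1 hU x hx
  set L := (2 * |A| + 1) / r with hL
  have L0 : 0 < L := by positivity
  have lip : ∀ᶠ k in l, ∀ z ∈ ball x r, dist (Φ k z) (Φ k x) ≤ L * dist z x := by
    filter_upwards [h] with k hk z hz
    refine Complex.dist_le_div_mul_dist_of_mapsTo_ball (hk.1.mono hr) (fun w hw => ?_) hz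
    have a := hk.2 w (hr hw)
    have b := hk.2 x hx
    have c := norm_sub_le (Φ k w) (Φ k x)
    have d := le_abs_self A
    rw [mem_closedBall, dist_eq_norm]
    linarith
  have lip' : ∀ z ∈ ball x r, dist (H z) (H x) ≤ L * dist z x := fun z hz =>
    le_of_tendsto ((hH z (hr hz)).dist (hH x hx)) (lip.mono fun k hk => hk z hz)
  refine ⟨ball x (min r (ε / 3 / L)), mem_nhdsWithin_of_mem_nhds (ball_mem_nhds _ (by positivity)),
    ?_⟩
  filter_upwards [lip, Metric.tendsto_nhds.1 (hH x hx) (ε / 3) (by positivity)] with k a b y hy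
  have y1 : y ∈ ball x r := ball_subset_ball (min_le_left _ _) hy
  have y2 : L * dist y x < ε / 3 := by
    have := (mem_ball.1 hy).trans_le (min_le_right _ _)
    rwa [lt_div_iff₀ L0, mul_comm] at this
  have c := dist_triangle4 (H y) (H x) (Φ k x) (Φ k y)
  have d := a y y1
  have e := lip' y y1
  rw [dist_comm (Φ k y)] at d
  rw [dist_comm] at b
  linarith

/-- Bounded holomorphic families converge along an ultrafilter. -/
lemma ulim (u : Ultrafilter ℕ) {Φ : ℕ → ℂ → Fin n → ℂ} {U : Set ℂ} (hU : IsOpen U) {A : ℝ}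
    (h : ∀ᶠ k in u, DifferentiableOn ℂ (Φ k) U ∧ ∀ z ∈ U, ‖Φ k z‖ ≤ A) :
    ∃ H, TendstoLocallyUniformlyOn Φ H u U := by
  have ex : ∀ z, ∃ y, z ∈ U → Tendsto (fun k => Φ k z) u (𝓝 y) := fun z => by
    by_cases hz : z ∈ U
    · obtain ⟨y, -, hy⟩ := (isCompact_closedBall (0 : Fin n → ℂ) A).ultrafilter_le_nhds
        (u.map fun k => Φ k z) (by
          rw [Ultrafilter.coe_map, le_principal_iff, mem_map]
          filter_upwards [h] with k hk
          simpa using hk.2 z hz)
      exact ⟨y, fun _ => hy⟩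
    · exact ⟨0, fun h => absurd h hz⟩
  choose H hH using ex
  exact ⟨H, locu hU h hH⟩

/-- The theorem of Hurwitz. -/
lemma hurwitz {l : Filter ℕ} [l.NeBot] {Φ : ℕ → ℂ → ℂ} {H : ℂ → ℂ} {U : Set ℂ} (hU : IsOpen U)
    (h : ∀ᶠ k in l, DifferentiableOn ℂ (Φ k) U ∧ ∀ z ∈ U, Φ k z ≠ 0)
    (hH : TendstoLocallyUniformlyOn Φ H l U) {c : ℂ} (hc : c ∈ U) :
    H c ≠ 0 ∨ ∀ᶠ z in 𝓝 c, H z = 0 := by
  have hd := hH.differentiableOn (h.mono fun k hk => hk.1) hU
  rcases (hd.analyticAt (hU.mem_nhds hc)).eventually_eq_zero_or_eventually_ne_zero with a | a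
  · exact Or.inr a
  refine Or.inl fun h0 => ?_
  obtain ⟨r, r0, hr⟩ := nhds_basis_closedBall.mem_iff.1
    ((eventually_nhdsWithin_iff.1 a).and (hU.mem_nhds hc))
  have sub : closedBall c r ⊆ U := fun z hz => (hr hz).2
  obtain ⟨x, x1, x2⟩ := (isCompact_sphere c r).exists_isMinOn (NormedSpace.sphere_nonempty.2 r0.le)
    (hd.continuousOn.mono (sphere_subset_closedBall.trans sub)).norm
  have m0 : 0 < ‖H x‖ := norm_pos_iff.2 ((hr (sphere_subset_closedBall x1)).1 fun e => by
    rw [mem_singleton_iff.1 e] at x1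
    simp at x1
    linarith)
  have un := (tendstoLocallyUniformlyOn_iff_forall_isCompact hU).1 hH _ sub
    (isCompact_closedBall c r)
  obtain ⟨k, k1, k2⟩ := (h.and (Metric.tendstoUniformlyOn_iff.1 un (‖H x‖ / 2) (by positivity))).exists
  have mx := Complex.norm_le_of_forall_mem_frontier_norm_le (f := fun z => (Φ k z)⁻¹)
    (U := ball c r) isBounded_ball (C := (‖H x‖ / 2)⁻¹) (z := c)
    (DifferentiableOn.diffContOnCl (by
      rw [closure_ball c r0.ne']
      exact (k1.1.mono sub).inv fun z hz => k1.2 z (sub hz)))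
    (fun z hz => by
      rw [frontier_ball c r0.ne'] at hz
      have a1 : ‖H x‖ ≤ ‖H z‖ := x2 hz
      have a2 := k2 z (sphere_subset_closedBall hz)
      have a3 := norm_le_insert' (H z) (Φ k z)
      rw [dist_eq_norm] at a2
      rw [norm_inv]
      exact inv_anti₀ (by positivity) (by linarith))
    (subset_closure (mem_ball_self r0))
  have b := k2 c (mem_closedBall_self r0.le)
  rw [h0, dist_comm, dist_zero_right] at b
  rw [norm_inv, inv_le_inv₀ (norm_pos_iff.2 (k1.2 c hc)) (by positivity)] at mx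
  linarith

lemma evd {U : Set ℂ} {Φ : ℂ → Fin n → ℂ} (h : DifferentiableOn ℂ Φ U) (P : PR n) :
    DifferentiableOn ℂ (fun z => eval (Φ z) P) U := by
  induction P using MvPolynomial.induction_on with
  | C c => simp
  | add p q hp hq => simp only [map_add]; exact hp.add hq
  | mul_X p i hp => simp only [map_mul, eval_X]; exact hp.mul (differentiableOn_pi.1 h i)

/-- The theorem of Hurwitz for a polynomial along a bounded family. -/
lemma hurwitz_ev {l : Filter ℕ} [l.NeBot] {Φ : ℕ → ℂ → Fin n → ℂ} {H : ℂ → Fin n → ℂ} {U : Set ℂ}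
    (hU : IsOpen U) {A : ℝ} (P : PR n)
    (h : ∀ᶠ k in l, DifferentiableOn ℂ (Φ k) U ∧ ∀ z ∈ U, ‖Φ k z‖ ≤ A ∧ eval (Φ k z) P ≠ 0)
    (hH : TendstoLocallyUniformlyOn Φ H l U) {c : ℂ} (hc : c ∈ U) :
    eval (H c) P ≠ 0 ∨ ∀ᶠ z in 𝓝 c, eval (H z) P = 0 := by
  obtain ⟨B, hB⟩ := (isCompact_closedBall (0 : Fin n → ℂ) A).exists_bound_of_continuousOn
    (MvPolynomial.continuous_eval P).continuousOn
  refine hurwitz (l := l) (Φ := fun k z => eval (Φ k z) P) (H := fun z => eval (H z) P) hU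
    (h.mono fun k hk => ⟨evd hk.1 P, fun z hz => (hk.2 z hz).2⟩)
    (locu hU (A := B) (h.mono fun k hk => ⟨evd hk.1 P, fun z hz => hB _ (by
      simpa using (hk.2 z hz).1)⟩) fun z hz =>
        ((MvPolynomial.continuous_eval P).tendsto _).comp (hH.tendsto_at hz)) hc

/-- A product of few linear factors is not small at one of finitely many fixed points. -/
lemma pig (N : ℕ) (c : ℂ) {r : ℝ} (hr : 0 < r) : ∃ δ : ℝ, 0 < δ ∧ ∃ Z : Fin (N + 1) → ℂ,
    (∀ i, Z i ∈ ball c (r / 8)) ∧ ∀ N' ≤ N, ∀ a : Fin N' → ℂ, ∃ i, δ ≤ ‖∏ j, (Z i - a j) / r‖ := by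
  set η : ℝ := 1 / (16 * (N + 1)) with hη
  have η0 : 0 < η := by positivity
  have η1 : η * (N + 1) = 1 / 16 := by rw [hη]; field_simp
  have N0 : (0 : ℝ) ≤ N := N.cast_nonneg
  refine ⟨η ^ N, by positivity, fun i => c + ((2 * η * r * (i : ℕ) : ℝ) : ℂ), fun i => ?_,
    fun N' hN a => ?_⟩
  · have : ((i : ℕ) : ℝ) ≤ N := by exact_mod_cast Nat.le_of_lt_succ i.2
    rw [mem_ball, dist_eq_norm, add_sub_cancel_left, Complex.norm_real, Real.norm_eq_abs,
      abs_of_nonneg (by positivity)]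
    have h1 : η * (i : ℕ) < 1 / 16 := by nlinarith
    nlinarith
  · have ex : ∃ i : Fin (N + 1), ∀ j, η * r ≤ ‖c + ((2 * η * r * (i : ℕ) : ℝ) : ℂ) - a j‖ := by
      by_contra hn
      push Not at hn
      choose j hj using hn
      have inj : Function.Injective j := fun i i' e => by
        have a1 := hj i
        have a2 := hj i'
        rw [← e] at a2
        have a3 := norm_sub_le (c + ((2 * η * r * (i : ℕ) : ℝ) : ℂ) - a (j i))
          (c + ((2 * η * r * (i' : ℕ) : ℝ) : ℂ) - a (j i))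
        rw [sub_sub_sub_cancel_right, add_sub_add_left_eq_sub, ← Complex.ofReal_sub,
          Complex.norm_real, Real.norm_eq_abs, ← mul_sub, abs_mul,
          abs_of_pos (by positivity)] at a3
        have a4 : |((i : ℕ) : ℝ) - (i' : ℕ)| < 1 := by
          have : 0 < η * r := by positivity
          nlinarith
        have a5 : |((i : ℕ) : ℤ) - (i' : ℕ)| < 1 := by exact_mod_cast a4
        rw [abs_lt] at a5
        exact Fin.ext (by omega)
      have := Fintype.card_le_of_injective j inj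
      simp at this
      omega
    obtain ⟨i, hi⟩ := ex
    refine ⟨i, ?_⟩
    rw [norm_prod]
    calc η ^ N ≤ η ^ N' := pow_le_pow_of_le_one η0.le (by nlinarith) hN
      _ = ∏ _j : Fin N', η := by simp
      _ ≤ _ := Finset.prod_le_prod (fun _ _ => η0.le) fun j _ => by
        rw [norm_div, Complex.norm_real, Real.norm_eq_abs, abs_of_pos hr, le_div_iff₀ hr]
        exact hi j

end Pool.Agent.MP_c69980_ag.H18
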