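import Pool.Agent.MP_c69980_ag.H18.Lim1

/-!
The limit curve of a sequence of discs with at most one point of concentration.
-/

set_option autoImplicit false

namespace Pool.Agent.MP_c69980_ag.H18

open MvPolynomial Metric Filter Topology Set
open scoped ENNReal
open H60 (PR PS Holo eval_smul_hom)
open H4

variable {n : ℕ} {u : Ultrafilter ℕ} {F : ℕ → ℂ → Fin n → ℂ} {R : ℕ → ℝ} {z c : ℂ}
  {x y y' : Fin n → ℂ} {g g' : ℂ → Fin n → ℂ}

/-- `y` is a limit of multiples of the values at `z`. -/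
def Lm (u : Ultrafilter ℕ) (F : ℕ → ℂ → Fin n → ℂ) (z : ℂ) (y : Fin n → ℂ) : Prop :=
  ∃ t : ℕ → ℂ, Tendsto (fun k => t k • F k z) u (𝓝 y)

/-- `g` is a local lift of the limit curve at `c`. -/
def Loc (u : Ultrafilter ℕ) (F : ℕ → ℂ → Fin n → ℂ) (c : ℂ) (g : ℂ → Fin n → ℂ) : Prop :=
  AnalyticAt ℂ g c ∧ g c ≠ 0 ∧ ∀ᶠ z in 𝓝[≠] c, Lm u F z (g z)

lemma Lm.par (h : Lm u F z y) (h' : Lm u F z y') (i j : Fin n) : y i * y' j = y j * y' i := by
  obtain ⟨t, ht⟩ := h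
  obtain ⟨t', ht'⟩ := h'
  refine tendsto_nhds_unique ((tendsto_pi_nhds.1 ht i).mul (tendsto_pi_nhds.1 ht' j))
    (((tendsto_pi_nhds.1 ht j).mul (tendsto_pi_nhds.1 ht' i)).congr fun k => ?_)
  simp only [Pi.smul_apply, smul_eq_mul]
  ring

lemma Lm.smul (h : Lm u F z y) (a : ℂ) : Lm u F z (a • y) := by
  obtain ⟨t, ht⟩ := h
  exact ⟨fun k => a * t k, (ht.const_smul a).congr fun k => smul_smul _ _ _⟩

lemma cont_eq {f f' : ℂ → ℂ} (h : ContinuousAt f c) (h' : ContinuousAt f' c)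
    (e : ∀ᶠ z in 𝓝[≠] c, f z = f' z) : f c = f' c :=
  tendsto_nhds_unique_of_eventuallyEq (h.mono_left nhdsWithin_le_nhds)
    (h'.mono_left nhdsWithin_le_nhds) e

lemma mk_eq (hx : x ≠ 0) (hy : y ≠ 0) :
    Projectivization.mk ℂ x hx = Projectivization.mk ℂ y hy ↔ ∀ i j, x i * y j = x j * y i := by
  rw [Projectivization.mk_eq_mk_iff']
  refine ⟨fun ⟨a, ha⟩ i j => ?_, fun h => ?_⟩
  · simp only [← ha, Pi.smul_apply, smul_eq_mul]
    ring
  · obtain ⟨j, hj⟩ := Function.ne_iff.1 hy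
    have hj' : y j ≠ 0 := hj
    refine ⟨x j / y j, funext fun i => ?_⟩
    simp only [Pi.smul_apply, smul_eq_mul]
    field_simp
    linear_combination h j i

lemma ev_mk {P : PR n} {e : ℕ} (hP : P.IsHomogeneous e) (h : x ≠ 0) :
    eval (Projectivization.mk ℂ x h).rep P = 0 ↔ eval x P = 0 := by
  obtain ⟨a, ha⟩ := Projectivization.exists_smul_eq_mk_rep ℂ x h
  rw [← ha, Units.smul_def, eval_smul_hom hP]
  simp

lemma Loc.mk (h : Loc u F c g) (h' : Loc u F c g') :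
    Projectivization.mk ℂ (g c) h.2.1 = Projectivization.mk ℂ (g' c) h'.2.1 := by
  have a := fun i => (analyticAt_pi_iff.1 h.1 i).continuousAt
  have b := fun i => (analyticAt_pi_iff.1 h'.1 i).continuousAt
  refine (mk_eq _ _).2 fun i j => cont_eq (f := fun z => g z i * g' z j)
    (f' := fun z => g z j * g' z i) ((a i).mul (b j)) ((a j).mul (b i)) ?_
  filter_upwards [h.2.2, h'.2.2] with z p q
  exact p.par q i j

lemma Loc.near (h : Loc u F c g) : ∀ᶠ s in 𝓝 c, Loc u F s g := by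
  filter_upwards [h.1.eventually_analyticAt, h.1.continuousAt.eventually_ne h.2.1,
    (eventually_nhdsWithin_iff.1 h.2.2).eventually_nhds] with s a b d
  refine ⟨a, b, ?_⟩
  by_cases e : s = c
  · exact e ▸ h.2.2
  · filter_upwards [nhdsWithin_le_nhds d, nhdsWithin_le_nhds (eventually_ne_nhds e)] with z p q
    exact p q

lemma ev_cont (h : AnalyticAt ℂ g c) (P : PR n) : ContinuousAt (fun z => eval (g z) P) c :=
  (MvPolynomial.continuous_eval P).continuousAt.comp h.continuousAt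

lemma ev_ball (hu : (u : Filter ℕ) ≤ atTop) (hR : Tendsto R atTop atTop) (c : ℂ) (s : ℝ) :
    ∀ᶠ k in u, ball c s ⊆ ball 0 (R k) :=
  hu ((hR.eventually_ge_atTop (s + ‖c‖)).mono fun k hk => ball_subset_ball' (by simpa using hk))

lemma Loc.eqn (hu : (u : Filter ℕ) ≤ atTop) (hR : Tendsto R atTop atTop) {P : PR n} {d : ℕ}
    (hP : P.IsHomogeneous d) (h0 : ∀ k, ∀ z ∈ ball 0 (R k), eval (F k z) P = 0)
    (h : Loc u F c g) : eval (g c) P = 0 := by
  refine cont_eq (f' := fun _ => 0) (ev_cont h.1 P) continuousAt_const (h.2.2.mono ?_)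
  rintro z ⟨t, ht⟩
  refine tendsto_nhds_unique_of_eventuallyEq (((MvPolynomial.continuous_eval P).tendsto _).comp ht)
    tendsto_const_nhds ((ev_ball hu hR z 1).mono fun k hk => ?_)
  simp [eval_smul_hom hP, h0 k z (hk (mem_ball_self one_pos))]

/-- A nonzero limit of normalised lifts gives a local lift. -/
lemma loc_of_lim {G : PR n} {d : ℕ} (hG : G.IsHomogeneous d) {φ : ℕ → ℂ → ℂ} {r A : ℝ}
    (hr : 0 < r) {H : ℂ → Fin n → ℂ}
    (h : ∀ᶠ k in u, DifferentiableOn ℂ (fun z => φ k z • F k z) (ball c r) ∧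
      ∀ z ∈ ball c r, ‖φ k z • F k z‖ ≤ A ∧ eval (φ k z • F k z) G ≠ 0)
    (hH : TendstoLocallyUniformlyOn (fun k z => φ k z • F k z) H u (ball c r))
    (h0 : ∃ z ∈ ball c r, H z ≠ 0) :
    ∃ g, Loc u F c g ∧ (eval (g c) G ≠ 0 ∨ ∀ᶠ z in 𝓝 c, eval (g z) G = 0) := by
  have hc := mem_ball_self (x := c) hr
  have an := (hH.differentiableOn (h.mono fun k hk => hk.1) isOpen_ball).analyticOnNhd isOpen_ball
  obtain ⟨m, g, g1, g2, g3⟩ := (an c hc).exists_eventuallyEq_pow_smul_nonzero_iff.2 fun e => by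
    obtain ⟨z, z1, z2⟩ := h0
    exact z2 (an.eqOn_zero_of_preconnected_of_eventuallyEq_zero (convex_ball c r).isPreconnected
      hc e z1)
  have e0 : ∀ᶠ z in 𝓝[≠] c, (z - c) ^ m ≠ 0 := by
    filter_upwards [self_mem_nhdsWithin] with z hz
    exact pow_ne_zero _ (sub_ne_zero.2 hz)
  refine ⟨g, ⟨g1, g2, ?_⟩, ?_⟩
  · filter_upwards [e0, nhdsWithin_le_nhds g3, nhdsWithin_le_nhds (ball_mem_nhds c hr)] with z a b e
    have : Lm u F z (H z) := ⟨fun k => φ k z, hH.tendsto_at e⟩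
    have := this.smul ((z - c) ^ m)⁻¹
    rwa [b, inv_smul_smul₀ a] at this
  · rcases hurwitz_ev isOpen_ball G h hH hc with a | a
    · rw [g3.self_of_nhds, eval_smul_hom hG] at a
      exact Or.inl (right_ne_zero_of_mul a)
    · have b : ∀ᶠ z in 𝓝[≠] c, eval (g z) G = 0 := by
        filter_upwards [e0, nhdsWithin_le_nhds g3, nhdsWithin_le_nhds a] with z p q s
        have s' : eval (H z) G = 0 := s
        rw [q, eval_smul_hom hG] at s'
        exact (mul_eq_zero.1 s').resolve_left (pow_ne_zero _ p)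
      have e := cont_eq (f' := fun _ => 0) (ev_cont g1 G) continuousAt_const b
      refine Or.inr ((eventually_nhdsWithin_iff.1 b).mono fun z hz => ?_)
      by_cases q : z = c
      · exact q ▸ e
      · exact hz q

/-- The limit curve near a point where the mass stays bounded. -/
lemma good (hN : NLStmt) (hM : MinorStmt) (hu : (u : Filter ℕ) ≤ atTop)
    (hR : Tendsto R atTop atTop) {G : PR n} {d : ℕ} (hG : G.IsHomogeneous d)
    (hF : ∀ k, Crv (ball 0 (R k)) (F k) ∧ ∀ z ∈ ball 0 (R k), eval (F k z) G ≠ 0) {s M : ℝ}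
    (s0 : 0 < s) (h : ∀ᶠ k in u, mu (lam (F k)) (ball c s) ≤ ENNReal.ofReal M) :
    ∃ g, Loc u F c g ∧ (eval (g c) G ≠ 0 ∨ ∀ᶠ z in 𝓝 c, eval (g z) G = 0) := by
  obtain ⟨N, A, hA⟩ := hN n M
  obtain ⟨δ, δ0, Z, Z1, Z2⟩ := pig N c s0
  have sub : ball c (s / 8) ⊆ ball c s := ball_subset_ball (by linarith)
  obtain ⟨φ, hφ⟩ := Filter.Eventually.choice (l := (u : Filter ℕ))
      (r := fun k (φ : ℂ → ℂ) => (DifferentiableOn ℂ (fun z => φ z • F k z) (ball c (s / 8)) ∧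
        ∀ z ∈ ball c (s / 8), ‖φ z • F k z‖ ≤ A ∧ eval (φ z • F k z) G ≠ 0) ∧
        ∃ i, δ ^ 2 ≤ n * ‖φ (Z i) • F k (Z i)‖ ^ 2) (by
    filter_upwards [h, ev_ball hu hR c s] with k k1 k2
    obtain ⟨φ, p, N', a, a1, a2, -, a3, a4⟩ := hA (F k) c s s0
      ⟨(hF k).1.1.mono k2, fun z hz => (hF k).1.2 z (k2 hz)⟩ k1
    obtain ⟨i, hi⟩ := Z2 N' a1 a
    refine ⟨φ, ⟨a3.smul ((hF k).1.1.mono (sub.trans k2)), fun z hz => ⟨(a4 z hz).2.1, ?_⟩⟩, i, ?_⟩
    · rw [eval_smul_hom hG]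
      exact mul_ne_zero (pow_ne_zero _ (a4 z hz).1) ((hF k).2 z (k2 (sub hz)))
    · obtain ⟨b1, -, b2⟩ := a4 _ (Z1 i)
      obtain ⟨-, -, -, -, -, m1, m2⟩ := hM n _ p (smul_ne_zero b1 ((hF k).1.2 _ (k2 (sub (Z1 i)))))
      rw [b2, a2, mul_one] at m2
      exact (pow_le_pow_left₀ δ0.le hi 2).trans (m2.trans m1))
  obtain ⟨H, hH⟩ := ulim u isOpen_ball (A := A)
    (hφ.mono fun k hk => ⟨hk.1.1, fun z hz => (hk.1.2 z hz).1⟩)
  obtain ⟨i, hi⟩ := Ultrafilter.eventually_exists_iff.1 (hφ.mono fun k hk => hk.2)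
  refine loc_of_lim hG (by positivity) (hφ.mono fun k hk => hk.1) hH ⟨Z i, Z1 i, fun e => ?_⟩
  have := ge_of_tendsto (((hH.tendsto_at (Z1 i)).norm.pow 2).const_mul (n : ℝ)) hi
  rw [e] at this
  simp at this
  exact δ0.ne' this

lemma sq_cont : Continuous (H4.sq : (Fin n → ℂ) → ℝ) := by
  unfold H4.sq
  fun_prop

/-- The limit curve near the origin. -/
lemma origin (hM : MinorStmt) {A : PR n} {a : ℕ} (hA : A.IsHomogeneous a) {r τ κ : ℝ}
    (r0 : 0 < r) (τ0 : 0 < τ) (κ0 : 0 < κ)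
    (h : ∀ᶠ k in u, Crv (ball 0 r) (F k) ∧ (∀ z ∈ ball 0 r, d2 (F k z) (F k 0) ≤ 1 / 2) ∧
      τ ≤ lam (F k) 0 ∧ κ * ‖F k 0‖ ^ a ≤ ‖eval (F k 0) A‖) :
    ∃ g, Loc u F 0 g ∧ eval (g 0) A ≠ 0 ∧
      ¬∀ i j, deriv g 0 i * g 0 j = g 0 i * deriv g 0 j := by
  have hc := mem_ball_self (x := (0 : ℂ)) r0
  let φ : ℕ → ℂ → ℂ := fun k z => (‖F k 0‖ : ℂ) / ip (F k z) (F k 0)
  let Φ : ℕ → ℂ → Fin n → ℂ := fun k z => φ k z • F k z
  have key : ∀ᶠ k in u, (DifferentiableOn ℂ (Φ k) (ball 0 r) ∧ ∀ z ∈ ball 0 r, ‖Φ k z‖ ≤ 2) ∧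
      1 ≤ n * ‖Φ k 0‖ ∧ κ * ‖Φ k 0‖ ^ a ≤ ‖eval (Φ k 0) A‖ ∧ τ * H4.sq (Φ k 0) ^ 2 ≤
        ∑ i, ∑ j, ‖deriv (Φ k) 0 i * Φ k 0 j - Φ k 0 i * deriv (Φ k) 0 j‖ ^ 2 := by
    filter_upwards [h] with k ⟨k1, k2, k3, k4⟩
    have w0 := k1.2 0 hc
    have w1 := norm_pos_iff.2 w0
    obtain ⟨-, -, -, m0, m1, m2, m3⟩ := hM n _ (F k 0) w0
    have bd : ∀ z ∈ ball (0 : ℂ) r, 0 < ‖ip (F k z) (F k 0)‖ ∧
        ‖F k 0‖ * ‖F k z‖ ≤ 2 * ‖ip (F k z) (F k 0)‖ := fun z hz => by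
      have y1 := norm_pos_iff.2 (k1.2 z hz)
      obtain ⟨-, -, -, -, p1, -, -⟩ := hM n _ (F k 0) (k1.2 z hz)
      have q0 : (‖F k 0‖ * ‖F k z‖) ^ 2 ≤ H4.sq (F k z) * H4.sq (F k 0) := by
        rw [mul_pow, mul_comm]
        exact mul_le_mul p1 m1 (by positivity) ((by positivity : 0 ≤ ‖F k z‖ ^ 2).trans p1)
      have q1 : 0 < (‖F k 0‖ * ‖F k z‖) ^ 2 := by positivity
      have q2 := k2 z hz
      rw [d2, sub_le_comm, le_div_iff₀ (q1.trans_le q0)] at q2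
      have q3 : ‖F k 0‖ * ‖F k z‖ ≤ 2 * ‖ip (F k z) (F k 0)‖ :=
        abs_le_of_sq_le_sq' (by nlinarith) (by positivity) |>.2
      exact ⟨by nlinarith [mul_pos w1 y1], q3⟩
    have dφ : DifferentiableOn ℂ (φ k) (ball 0 r) := by
      refine (differentiableOn_const _).div ?_ fun z hz => norm_pos_iff.1 (bd z hz).1
      exact DifferentiableOn.fun_sum fun i _ => (differentiableOn_pi.1 k1.1 i).mul_const _
    have nφ : ∀ z, ‖Φ k z‖ = ‖F k 0‖ * ‖F k z‖ / ‖ip (F k z) (F k 0)‖ := fun z => by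
      simp only [Φ, φ, norm_smul, norm_div, Complex.norm_real, norm_norm]
      ring
    have φ0 : φ k 0 ≠ 0 := div_ne_zero (by exact_mod_cast w1.ne') (norm_pos_iff.1 (bd 0 hc).1)
    refine ⟨⟨dφ.smul k1.1, fun z hz => ?_⟩, ?_, ?_, ?_⟩
    · rw [nφ, div_le_iff₀ (bd z hz).1]
      exact (bd z hz).2
    · rw [nφ, ← mul_div_assoc, le_div_iff₀ (bd 0 hc).1, one_mul]
      have : ‖ip (F k 0) (F k 0)‖ ≤ H4.sq (F k 0) :=
        abs_le_of_sq_le_sq' (by nlinarith) ((by positivity : 0 ≤ ‖F k 0‖ ^ 2).trans m1) |>.2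
      nlinarith
    · simp only [Φ, eval_smul_hom hA, norm_mul, norm_pow, norm_smul, mul_pow]
      rw [mul_left_comm]
      exact mul_le_mul_of_nonneg_left k4 (by positivity)
    · have d1 : deriv (Φ k) 0 = φ k 0 • deriv (F k) 0 + deriv (φ k) 0 • F k 0 :=
        deriv_fun_smul (dφ.differentiableAt (ball_mem_nhds _ r0))
          (k1.1.differentiableAt (ball_mem_nhds _ r0))
      obtain ⟨-, -, -, p0, -⟩ := hM n _ (deriv (F k) 0) w0
      obtain ⟨-, p1, -⟩ := hM n (Φ k 0) (deriv (Φ k) 0) (smul_ne_zero φ0 w0)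
      refine le_trans (mul_le_mul_of_nonneg_right ?_ (by positivity)) p1
      rw [d1]
      exact k3.trans_eq (p0 _ _ φ0).symm
  obtain ⟨H, hH⟩ := ulim u isOpen_ball (key.mono fun k hk => hk.1)
  have hd := key.mono fun k hk => hk.1.1
  have t0 := hH.tendsto_at hc
  have t1 := tendsto_pi_nhds.1 ((hH.deriv hd isOpen_ball).tendsto_at hc)
  have t2 := tendsto_pi_nhds.1 t0
  have H0 : H 0 ≠ 0 := fun e => by
    have := ge_of_tendsto (t0.norm.const_mul (n : ℝ)) (key.mono fun k hk => hk.2.1)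
    rw [e] at this
    simp at this
    linarith
  have H1 := norm_pos_iff.2 H0
  refine ⟨H, ⟨(hH.differentiableOn hd isOpen_ball).analyticAt (ball_mem_nhds _ r0), H0, ?_⟩,
    norm_pos_iff.1 (lt_of_lt_of_le (by positivity) (le_of_tendsto_of_tendsto
      ((t0.norm.pow a).const_mul κ) (((MvPolynomial.continuous_eval A).tendsto _).comp t0).norm
      (key.mono fun k hk => hk.2.2.1))), fun e => ?_⟩
  · filter_upwards [nhdsWithin_le_nhds (ball_mem_nhds _ r0)] with z hz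
    exact ⟨fun k => φ k z, hH.tendsto_at hz⟩
  · have := le_of_tendsto_of_tendsto ((((sq_cont.tendsto _).comp t0).pow 2).const_mul τ)
      (tendsto_finsetSum Finset.univ fun i _ => tendsto_finsetSum Finset.univ fun j _ =>
        (((t1 i).mul (t2 j)).sub ((t2 i).mul (t1 j))).norm.pow 2) (key.mono fun k hk => hk.2.2.2)
    obtain ⟨-, -, -, -, p1, -, -⟩ := hM n _ 0 H0
    have p2 : 0 < H4.sq (H 0) := (by positivity : 0 < ‖H 0‖ ^ 2).trans_le p1
    simp only [e, sub_self, norm_zero, ne_eq, OfNat.ofNat_ne_zero, not_false_eq_true, zero_pow,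
      Finset.sum_const_zero] at this
    exact absurd this (not_le.2 (by positivity))

/-- The mass concentrates at one point at most, and not at the origin. -/
lemma one_pt (hu : (u : Filter ℕ) ≤ atTop) {ν : ℕ → ℂ → ℝ} {ε : ℝ}
    (h0 : ∀ k, mu (ν k) (ball 0 1) ≤ ENNReal.ofReal ε)
    (h : ∀ t : ℕ, 1 ≤ t → ∃ M : ℝ, ∀ᶠ k in atTop, ¬Two (ν k) t M 0 1) :
    ∃ e : ℂ, e ≠ 0 ∧ ∀ c ≠ e, ∃ s M : ℝ, 0 < s ∧
      ∀ᶠ k in u, mu (ν k) (ball c s) ≤ ENNReal.ofReal M := by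
  by_cases hb : ∀ c, ∃ s M : ℝ, 0 < s ∧ ∀ᶠ k in u, mu (ν k) (ball c s) ≤ ENNReal.ofReal M
  · exact ⟨1, one_ne_zero, fun c _ => hb c⟩
  obtain ⟨e, he⟩ := not_forall.1 hb
  refine ⟨e, fun q => he ⟨1, ε, one_pos, .of_forall fun k => q ▸ h0 k⟩, fun c hc => ?_⟩
  by_contra hc'
  have bad : ∀ b, (¬∃ s M : ℝ, 0 < s ∧ ∀ᶠ k in u, mu (ν k) (ball b s) ≤ ENNReal.ofReal M) →
      ∀ s M : ℝ, 0 < s → ∀ᶠ k in u, ENNReal.ofReal M < mu (ν k) (ball b s) := fun b hb s M s0 =>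
    (Ultrafilter.eventually_not.2 fun q => hb ⟨s, M, s0, q⟩).mono fun k hk => not_le.1 hk
  have d0 := dist_pos.2 hc
  obtain ⟨t, ht⟩ := exists_nat_gt (‖c‖ + ‖e‖ + (dist c e)⁻¹)
  have d1 := inv_pos.2 d0
  have c0 := norm_nonneg c
  have e0 := norm_nonneg e
  have t0 : (0 : ℝ) < t := by linarith
  obtain ⟨M, hM⟩ := h t (by exact_mod_cast t0)
  obtain ⟨k, k1, k2, k3⟩ := ((hM.filter_mono hu).and ((bad c hc' (1 / (100 * t)) M
    (by positivity)).and (bad e he (1 / (100 * t)) M (by positivity)))).exists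
  refine k1 ⟨c, by simp; linarith, e, by simp; linarith, ?_, k2, k3⟩
  rw [one_div]
  exact inv_le_of_inv_le₀ d0 (by linarith)

theorem lim (hN : NLStmt) (hE : EpsStmt) (hM : MinorStmt) (_hL : LapQStmt) : LimStmt := by
  intro n
  obtain ⟨ε, B, ε0, B0, hB⟩ := hE n
  refine ⟨min ε (1 / (2 * B)), by positivity, ?_⟩
  intro F R G A d a τ κ hG hA hGA τ0 κ0 hR hF hT
  let u : Ultrafilter ℕ := Ultrafilter.of atTop
  have hu : (u : Filter ℕ) ≤ atTop := Ultrafilter.of_le _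
  obtain ⟨e, e0, he⟩ := one_pt hu (fun k => (hF k).2.2.1) hT
  obtain ⟨g₀, l0, l1, l2⟩ := origin (u := u) (F := F) hM hA (r := 1 / 16) (by norm_num) τ0 κ0 (by
    filter_upwards [ev_ball hu hR 0 1] with k hk
    have cr : Crv (ball 0 1) (F k) := ⟨(hF k).1.1.mono hk, fun z hz => (hF k).1.2 z (hk hz)⟩
    have sub : ball (0 : ℂ) (1 / 16) ⊆ ball 0 1 := ball_subset_ball (by norm_num)
    refine ⟨⟨cr.1.mono sub, fun z hz => cr.2 z (sub hz)⟩, fun z hz => ?_, (hF k).2.2.2⟩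
    refine (hB (F k) 0 1 _ one_pos cr (by positivity) (min_le_left _ _) (hF k).2.2.1 z hz).2.trans ?_
    refine (mul_le_mul_of_nonneg_left (min_le_right _ _) B0.le).trans_eq ?_
    field_simp)
  let σ : ℂ → ℂ := fun t => e - e * Complex.exp t
  have σ0 : σ 0 = 0 := by simp [σ]
  have σ1 : ∀ t, AnalyticAt ℂ σ t := fun t => by fun_prop
  have σ2 : ∀ z ≠ e, ∃ t, σ t = z := fun z hz => ⟨Complex.log ((e - z) / e), by
    simp only [σ]
    rw [Complex.exp_log (div_ne_zero (sub_ne_zero.2 hz.symm) e0)]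
    field_simp
    ring⟩
  have ex : ∀ t, ∃ g, Loc u F (σ t) g ∧
      (eval (g (σ t)) G ≠ 0 ∨ ∀ᶠ z in 𝓝 (σ t), eval (g z) G = 0) := fun t => by
    obtain ⟨s, M, s0, hs⟩ := he (σ t) (by simp [σ, e0])
    exact good hN hM hu hR hG (fun k => ⟨(hF k).1, (hF k).2.1⟩) s0 hs
  choose g g1 g2 using ex
  let f : ℂ → PS n := fun t => Projectivization.mk ℂ (g t (σ t)) (g1 t).2.1
  have fl : ∀ t γ (h : Loc u F (σ t) γ), f t = Projectivization.mk ℂ (γ (σ t)) h.2.1 :=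
    fun t γ h => (g1 t).mk h
  have nr : ∀ t, ∀ᶠ s in 𝓝 t, Loc u F (σ s) (g t) := fun t => (σ1 t).continuousAt (g1 t).near
  have l0' : Loc u F (σ 0) g₀ := by rw [σ0]; exact l0
  have fA : eval (f 0).rep A ≠ 0 := by
    rw [fl 0 g₀ l0', Ne, ev_mk hA, σ0]
    exact l1
  refine ⟨f, fun t _ => ⟨fun s => g t (σ s), (g1 t).1.comp (σ1 t),
    (nr t).mono fun s hs => ⟨hs.2.1, fl s _ hs⟩⟩, ?_, fun P d' hP h0 t => ?_, ?_, 0, fA⟩
  · by_contra hc
    push Not at hc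
    refine l2 fun i j => ?_
    have dg := fun i => (differentiableAt_pi.1 l0.1.differentiableAt i)
    have ev : (fun z => g₀ z i * g₀ 0 j) =ᶠ[𝓝 0] fun z => g₀ 0 i * g₀ z j := by
      filter_upwards [l0.near, eventually_ne_nhds e0.symm] with z z1 z2
      obtain ⟨t, rfl⟩ := σ2 z z2
      have := (mk_eq _ _).1 ((fl t g₀ z1).symm.trans ((hc t 0).trans (fl 0 g₀ l0'))) i j
      rw [σ0] at this
      exact this.trans (mul_comm _ _)
    have := ev.deriv_eq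
    rw [deriv_mul_const (dg i), deriv_const_mul _ (dg j)] at this
    rw [deriv_pi dg]
    exact this
  · exact (ev_mk hP _).2 ((g1 t).eqn hu hR hP h0)
  · have cl : IsClopen {t | eval (f t).rep G = 0} := by
      have loc : ∀ t, (∀ᶠ s in 𝓝 t, eval (f s).rep G ≠ 0) ∨ ∀ᶠ s in 𝓝 t, eval (f s).rep G = 0 :=
        fun t => by
        refine (g2 t).imp (fun q => ?_) fun q => ?_
        · filter_upwards [nr t, (σ1 t).continuousAt
            ((ev_cont (g1 t).1 G).eventually_ne q)] with s s1 s2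
          rw [fl s _ s1, Ne, ev_mk hG]
          exact s2
        · filter_upwards [nr t, (σ1 t).continuousAt q] with s s1 s2
          rw [fl s _ s1, ev_mk hG]
          exact s2
      exact ⟨isOpen_compl_iff.1 (isOpen_iff_mem_nhds.2 fun t ht =>
        (loc t).resolve_right fun q => ht q.self_of_nhds), isOpen_iff_mem_nhds.2 fun t ht =>
        (loc t).resolve_left fun q => q.self_of_nhds ht⟩
    intro t ht
    have h0 : (0 : ℂ) ∈ {t | eval (f t).rep G = 0} := by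
      rw [cl.eq_univ ⟨t, ht⟩]
      trivial
    obtain ⟨Q, rfl⟩ := hGA
    exact fA (by rw [map_mul, show eval (f 0).rep G = 0 from h0, zero_mul])

end Pool.Agent.MP_c69980_ag.H18
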